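import Mathlib

set_option autoImplicit false

/-!
# Shared vertices of unit regular simplices in a set of diameter one

Schur's question asks whether a unit regular `k`-simplex and a unit regular `m`-simplex in `ℝ^d`
(`m ≤ k ≤ d`) whose union has diameter `1` share at least `k + 2 * m - 2 * d + 1` vertices.

The answer is no.  Write `ℝ^d` as an orthogonal sum of `2 * x` planes and a space of dimension
`t = d - 4 * x`.  In a plane with orthonormal basis `e, f` consider the two points `e / √2`,
`f / √2` and the one point `(e + f) / 2`.  The first simplex takes the pair of points in the first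
`x` planes and the single point in the last `x` planes; the second simplex does the opposite; both
contain the points `e_j / √2` of the remaining `t` coordinates.  All points have norm `1 / √2` and
nonnegative coordinates, so all distances are at most `1`, and distinct points of one simplex are
orthogonal.  The simplices have `d - x` vertices each and share `t = d - 4 * x` of them, while
the conjectured number of shared vertices would be `d - 3 * x - 2`.
-/

namespace Pool.Agent.Results.MP_6a54e9_co.SchurSharedVertices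

/-- `S` is (the vertex set of) a unit regular `k`-simplex in `ℝ^d`: a set of `k + 1` points whose
pairwise distances all equal `1`. -/
def IsUnitRegularSimplex {d : ℕ} (k : ℕ) (S : Set (EuclideanSpace ℝ (Fin d))) : Prop :=
  S.ncard = k + 1 ∧ ∀ p ∈ S, ∀ q ∈ S, p ≠ q → dist p q = 1

/-- the point `e_j / √2` -/
noncomputable def u (d : ℕ) (j : Fin d) : EuclideanSpace ℝ (Fin d) :=
  EuclideanSpace.single j (1 / Real.sqrt 2)

/-- the point `(e_{2 i} + e_{2 i + 1}) / 2` -/
noncomputable def w (d : ℕ) (i : ℕ) : EuclideanSpace ℝ (Fin d) :=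
  WithLp.toLp 2 (fun j : Fin d => if j.val / 2 = i then (1 / 2 : ℝ) else 0)

theorem inner_u (d : ℕ) (j : Fin d) (v : EuclideanSpace ℝ (Fin d)) :
    inner ℝ (u d j) v = (1 / Real.sqrt 2) * v j := by
  unfold u
  rw [EuclideanSpace.inner_single_left]
  simp

theorem inner_u_u (d : ℕ) (j j' : Fin d) :
    inner ℝ (u d j) (u d j') = if j = j' then (1 / 2 : ℝ) else 0 := by
  rw [inner_u]
  unfold u
  rw [PiLp.single_apply]
  split_ifs with h
  · have h2 : Real.sqrt 2 * Real.sqrt 2 = 2 := Real.mul_self_sqrt (by norm_num)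
    rw [div_mul_div_comm, h2]
    norm_num
  · simp

theorem inner_u_w (d : ℕ) (j : Fin d) (i : ℕ) :
    inner ℝ (u d j) (w d i) = if j.val / 2 = i then (1 / Real.sqrt 2) * (1 / 2 : ℝ) else 0 := by
  rw [inner_u]
  unfold w
  simp only
  split_ifs <;> simp

theorem inner_w_w (d : ℕ) (i i' : ℕ) (h : 2 * i + 1 < d) :
    inner ℝ (w d i) (w d i') = if i = i' then (1 / 2 : ℝ) else 0 := by
  unfold w
  rw [PiLp.inner_apply]
  simp only [RCLike.inner_apply, conj_trivial]
  split_ifs with hii
  · subst hii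
    have hset : (Finset.univ.filter fun j : Fin d => j.val / 2 = i)
        = {⟨2 * i, by omega⟩, ⟨2 * i + 1, h⟩} := by
      ext j
      simp only [Finset.mem_filter, Finset.mem_univ, true_and, Finset.mem_insert,
        Finset.mem_singleton, Fin.ext_iff]
      omega
    have : ∀ j : Fin d, (if j.val / 2 = i then (1 / 2 : ℝ) else 0) *
        (if j.val / 2 = i then (1 / 2 : ℝ) else 0) = if j.val / 2 = i then (1 / 4 : ℝ) else 0 := by
      intro j
      split_ifs <;> norm_num
    rw [Finset.sum_congr rfl fun j _ => this j, ← Finset.sum_filter, hset,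
      Finset.sum_pair (by simp [Fin.ext_iff])]
    norm_num
  · apply Finset.sum_eq_zero
    intro j _
    split_ifs with h1 h2
    · exact absurd (h2.symm.trans h1) hii
    all_goals simp

theorem dist_sq {d : ℕ} {p q : EuclideanSpace ℝ (Fin d)} (hp : inner ℝ p p = (1 / 2 : ℝ))
    (hq : inner ℝ q q = (1 / 2 : ℝ)) : dist p q ^ 2 = 1 - 2 * inner ℝ p q := by
  rw [dist_eq_norm, @norm_sub_sq_real, ← real_inner_self_eq_norm_sq, ← real_inner_self_eq_norm_sq,
    hp, hq]
  ring

theorem dist_le {d : ℕ} {p q : EuclideanSpace ℝ (Fin d)} (hp : inner ℝ p p = (1 / 2 : ℝ))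
    (hq : inner ℝ q q = (1 / 2 : ℝ)) (h : 0 ≤ (inner ℝ p q : ℝ)) : dist p q ≤ 1 := by
  have h1 := dist_sq hp hq
  have h2 : (0 : ℝ) ≤ dist p q := dist_nonneg
  nlinarith

theorem dist_eq {d : ℕ} {p q : EuclideanSpace ℝ (Fin d)} (hp : inner ℝ p p = (1 / 2 : ℝ))
    (hq : inner ℝ q q = (1 / 2 : ℝ)) (h : (inner ℝ p q : ℝ) = 0) : dist p q = 1 := by
  have h1 := dist_sq hp hq
  have h2 : (0 : ℝ) ≤ dist p q := dist_nonneg
  rw [h, mul_zero, sub_zero] at h1
  nlinarith

theorem u_injective (d : ℕ) : Function.Injective (u d) := by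
  intro j j' h
  by_contra hne
  have h1 := inner_u_u d j j'
  rw [if_neg hne, ← h, inner_u_u, if_pos rfl] at h1
  norm_num at h1

theorem w_inj (d : ℕ) {i i' : ℕ} (hi : 2 * i + 1 < d) (h : w d i = w d i') : i = i' := by
  by_contra hne
  have h1 := inner_w_w d i i' hi
  rw [if_neg hne, ← h, inner_w_w d i i hi, if_pos rfl] at h1
  norm_num at h1

theorem u_ne_w (d : ℕ) (j : Fin d) (i : ℕ) : u d j ≠ w d i := by
  intro h
  have h1 := inner_u_u d j j
  rw [if_pos rfl] at h1
  have h2 := inner_u_w d j i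
  rw [← h, h1] at h2
  have h3 : (1 : ℝ) < Real.sqrt 2 := by
    rw [Real.lt_sqrt (by norm_num)]
    norm_num
  have h4 : 1 / Real.sqrt 2 < 1 := by
    rw [div_lt_one (by positivity)]
    exact h3
  split_ifs at h2 <;> linarith

/-- all the points used by the construction -/
def IsPt (d : ℕ) (p : EuclideanSpace ℝ (Fin d)) : Prop :=
  (∃ j : Fin d, p = u d j) ∨ ∃ i : ℕ, 2 * i + 1 < d ∧ p = w d i

theorem IsPt.inner_self {d : ℕ} {p : EuclideanSpace ℝ (Fin d)} (h : IsPt d p) :
    inner ℝ p p = (1 / 2 : ℝ) := by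
  rcases h with ⟨j, rfl⟩ | ⟨i, hi, rfl⟩
  · rw [inner_u_u, if_pos rfl]
  · rw [inner_w_w d i i hi, if_pos rfl]

theorem IsPt.inner_nonneg {d : ℕ} {p q : EuclideanSpace ℝ (Fin d)} (hp : IsPt d p)
    (hq : IsPt d q) : 0 ≤ (inner ℝ p q : ℝ) := by
  rcases hp with ⟨j, rfl⟩ | ⟨i, hi, rfl⟩ <;> rcases hq with ⟨j', rfl⟩ | ⟨i', hi', rfl⟩
  · rw [inner_u_u]
    split_ifs <;> norm_num
  · rw [inner_u_w]
    split_ifs
    · positivity
    · exact le_refl _
  · rw [real_inner_comm, inner_u_w]
    split_ifs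
    · positivity
    · exact le_refl _
  · rw [inner_w_w d i i' hi]
    split_ifs <;> norm_num

/-- the simplex with vertices `e_j / √2`, `j ∈ J`, and `(e_{2 i} + e_{2 i + 1}) / 2`, `i ∈ I` -/
noncomputable def simplex (d : ℕ) (J : Finset (Fin d)) (I : Finset ℕ) :
    Finset (EuclideanSpace ℝ (Fin d)) := by
  classical exact J.image (u d) ∪ I.image (w d)

theorem mem_simplex {d : ℕ} {J : Finset (Fin d)} {I : Finset ℕ}
    {p : EuclideanSpace ℝ (Fin d)} :
    p ∈ simplex d J I ↔ (∃ j ∈ J, p = u d j) ∨ ∃ i ∈ I, p = w d i := by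
  classical
  unfold simplex
  simp only [Finset.mem_union, Finset.mem_image, eq_comm]

theorem isPt_of_mem {d : ℕ} {J : Finset (Fin d)} {I : Finset ℕ} (hI : ∀ i ∈ I, 2 * i + 1 < d)
    {p : EuclideanSpace ℝ (Fin d)} (hp : p ∈ simplex d J I) : IsPt d p := by
  rcases mem_simplex.1 hp with ⟨j, _, rfl⟩ | ⟨i, hi, rfl⟩
  · exact Or.inl ⟨j, rfl⟩
  · exact Or.inr ⟨i, hI i hi, rfl⟩

theorem card_simplex {d : ℕ} {J : Finset (Fin d)} {I : Finset ℕ} (hI : ∀ i ∈ I, 2 * i + 1 < d) :
    (simplex d J I).card = J.card + I.card := by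
  classical
  unfold simplex
  rw [Finset.card_union_of_disjoint, Finset.card_image_of_injective _ (u_injective d),
    Finset.card_image_of_injOn]
  · intro i hi i' _ h
    exact w_inj d (hI i hi) h
  · rw [Finset.disjoint_left]
    intro p h1 h2
    rw [Finset.mem_image] at h1 h2
    obtain ⟨j, _, rfl⟩ := h1
    obtain ⟨i, _, h⟩ := h2
    exact u_ne_w d j i h.symm

theorem isUnitRegularSimplex_simplex {d k : ℕ} {J : Finset (Fin d)} {I : Finset ℕ}
    (hI : ∀ i ∈ I, 2 * i + 1 < d) (hJI : ∀ j ∈ J, ∀ i ∈ I, j.val / 2 ≠ i)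
    (hc : J.card + I.card = k + 1) :
    IsUnitRegularSimplex k (simplex d J I : Set (EuclideanSpace ℝ (Fin d))) := by
  refine ⟨(Set.ncard_coe_finset _).trans ((card_simplex hI).trans hc), ?_⟩
  intro p hp q hq hne
  refine dist_eq (isPt_of_mem hI hp).inner_self (isPt_of_mem hI hq).inner_self ?_
  rcases mem_simplex.1 hp with ⟨j, hj, rfl⟩ | ⟨i, hi, rfl⟩ <;>
    rcases mem_simplex.1 hq with ⟨j', hj', rfl⟩ | ⟨i', hi', rfl⟩
  · rw [inner_u_u, if_neg]
    rintro rfl
    exact hne rfl
  · rw [inner_u_w, if_neg (hJI j hj i' hi')]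
  · rw [real_inner_comm, inner_u_w, if_neg (hJI j' hj' i hi)]
  · rw [inner_w_w d i i' (hI i hi), if_neg]
    rintro rfl
    exact hne rfl

theorem card_filter_ge (d a : ℕ) :
    (Finset.univ.filter fun j : Fin d => a ≤ j.val).card = d - a := by
  have h := Fin.card_filter_val_lt (n := d) (m := a)
  have h2 := Finset.card_filter_add_card_filter_not (s := (Finset.univ : Finset (Fin d)))
    (fun j : Fin d => j.val < a)
  simp only [not_lt, Finset.card_univ, Fintype.card_fin] at h2
  omega

/-- **The conjectured bound on the number of shared vertices fails, by arbitrarily much.**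
For all `r` and all `d ≥ 4 * r + 12` there are a unit regular `k`-simplex and a unit regular
`m`-simplex in `ℝ^d`, `m ≤ k ≤ d`, whose union has diameter `1` and which share fewer than
`(k + 2 * m - 2 * d + 1) - r` vertices. -/
theorem result (r d : ℕ) (hd : 4 * r + 12 ≤ d) :
    ∃ (k m : ℕ) (S₁ S₂ : Set (EuclideanSpace ℝ (Fin d))),
      m ≤ k ∧ k ≤ d ∧ IsUnitRegularSimplex k S₁ ∧ IsUnitRegularSimplex m S₂ ∧
      (∀ p ∈ S₁ ∪ S₂, ∀ q ∈ S₁ ∪ S₂, dist p q ≤ 1) ∧
      ((S₁ ∩ S₂).ncard : ℤ) + r < (k : ℤ) + 2 * m - 2 * d + 1 := by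
  classical
  obtain ⟨x, hx⟩ : ∃ x, x = r + 3 := ⟨_, rfl⟩
  have hxd : 4 * x ≤ d := by omega
  set J₁ : Finset (Fin d) := (Finset.univ.filter fun j : Fin d => j.val < 2 * x) ∪
    (Finset.univ.filter fun j : Fin d => 4 * x ≤ j.val) with hJ₁
  set J₂ : Finset (Fin d) := Finset.univ.filter fun j : Fin d => 2 * x ≤ j.val with hJ₂
  set I₁ : Finset ℕ := Finset.Ico x (2 * x) with hI₁
  set I₂ : Finset ℕ := Finset.range x with hI₂
  have hcJ₁ : J₁.card = 2 * x + (d - 4 * x) := by
    rw [hJ₁, Finset.card_union_of_disjoint, card_filter_ge, Fin.card_filter_val_lt]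
    · omega
    · rw [Finset.disjoint_left]
      intro j h1 h2
      simp only [Finset.mem_filter, Finset.mem_univ, true_and] at h1 h2
      omega
  have hcJ₂ : J₂.card = d - 2 * x := card_filter_ge d (2 * x)
  have hb₁ : ∀ i ∈ I₁, 2 * i + 1 < d := by
    intro i hi
    rw [hI₁, Finset.mem_Ico] at hi
    omega
  have hb₂ : ∀ i ∈ I₂, 2 * i + 1 < d := by
    intro i hi
    rw [hI₂, Finset.mem_range] at hi
    omega
  refine ⟨d - x - 1, d - x - 1, simplex d J₁ I₁, simplex d J₂ I₂, le_refl _, by omega,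
    isUnitRegularSimplex_simplex hb₁ ?_ ?_, isUnitRegularSimplex_simplex hb₂ ?_ ?_, ?_, ?_⟩
  · intro j hj i hi
    rw [hJ₁] at hj
    rw [hI₁] at hi
    simp only [Finset.mem_filter, Finset.mem_univ, true_and, Finset.mem_union,
      Finset.mem_Ico] at hj hi
    omega
  · rw [hcJ₁, hI₁, Nat.card_Ico]
    omega
  · intro j hj i hi
    rw [hJ₂] at hj
    rw [hI₂] at hi
    simp only [Finset.mem_filter, Finset.mem_univ, true_and, Finset.mem_range] at hj hi
    omega
  · rw [hcJ₂, hI₂, Finset.card_range]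
    omega
  · intro p hp q hq
    have key : ∀ p ∈ (simplex d J₁ I₁ : Set (EuclideanSpace ℝ (Fin d))) ∪ simplex d J₂ I₂,
        IsPt d p := by
      intro p hp
      rcases hp with hp | hp
      · exact isPt_of_mem hb₁ hp
      · exact isPt_of_mem hb₂ hp
    exact dist_le (key p hp).inner_self (key q hq).inner_self
      ((key p hp).inner_nonneg (key q hq))
  · have hsub : simplex d J₁ I₁ ∩ simplex d J₂ I₂ ⊆
        (Finset.univ.filter fun j : Fin d => 4 * x ≤ j.val).image (u d) := by
      intro p hp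
      rw [Finset.mem_inter] at hp
      obtain ⟨h1, h2⟩ := hp
      rcases mem_simplex.1 h1 with ⟨j, hj, rfl⟩ | ⟨i, hi, rfl⟩
      · rcases mem_simplex.1 h2 with ⟨j', hj', h⟩ | ⟨i', hi', h⟩
        · have hjj : j = j' := u_injective d h
          subst hjj
          refine Finset.mem_image_of_mem _ ?_
          rw [hJ₁] at hj
          rw [hJ₂] at hj'
          simp only [Finset.mem_filter, Finset.mem_univ, true_and, Finset.mem_union] at hj hj' ⊢
          omega
        · exact absurd h (u_ne_w d j i')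
      · rcases mem_simplex.1 h2 with ⟨j', hj', h⟩ | ⟨i', hi', h⟩
        · exact absurd h.symm (u_ne_w d j' i)
        · have hii : i = i' := w_inj d (hb₁ i hi) h
          subst hii
          rw [hI₁, Finset.mem_Ico] at hi
          rw [hI₂, Finset.mem_range] at hi'
          omega
    have hcard : (simplex d J₁ I₁ ∩ simplex d J₂ I₂).card ≤ d - 4 * x := by
      refine (Finset.card_le_card hsub).trans ?_
      rw [Finset.card_image_of_injective _ (u_injective d), card_filter_ge]
    rw [← Finset.coe_inter, Set.ncard_coe_finset]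
    omega

end Pool.Agent.Results.MP_6a54e9_co.SchurSharedVertices
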